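import Mathlib

set_option autoImplicit false

namespace Pool.Agent.L5helper65.Dep

/-- `a` is the product, in this order, of conjugates in `G` of the elements `g 0, g 1, …`. -/
def Dependent {G : Type} [Group G] (a : G) {n : ℕ} (g : Fin n → G) : Prop :=
  ∃ c : Fin n → G, a = (List.ofFn (fun i => c i * g i * (c i)⁻¹)).prod

/-- Dependences in `H` between elements of the image of `G` already hold in `G`. -/
def Reflects {G H : Type} [Group G] [Group H] (φ : G →* H) : Prop :=
  ∀ (n : ℕ) (a : G) (g : Fin n → G), Dependent (φ a) (fun i => φ (g i)) → Dependent a g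

/-- `H` is obtained from `G` by adjoining a solution `t` of one equation
`a 0 * t * a 1 * t * … * a (d-1) * t = 1` of positive degree `d` with coefficients in `G`. -/
def PositiveStep (d : ℕ) {G H : Type} [Group G] [Group H] (φ : G →* H) : Prop :=
  0 < d ∧ ∃ (a : Fin d → G) (t : H),
    (List.ofFn (fun i => φ (a i) * t)).prod = 1 ∧
    Subgroup.closure (Set.range φ ∪ {t}) = ⊤ ∧
    ∀ (L : Type) [Group L] (α : G →* L) (s : L),
      (List.ofFn (fun i => α (a i) * s)).prod = 1 → ∃ ψ : H →* L, ψ.comp φ = α ∧ ψ t = s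

/-- `G` is a Cohen-Lyndon subgroup of `H` (embedded by `φ`): there is a subset `T` of `H` such that the
conjugates `t * φ(G) * t⁻¹`, `t` in `T`, generate their free product `N`, and `H = N * T`. -/
def CohenLyndonStep {G H : Type} [Group G] [Group H] (φ : G →* H) : Prop :=
  ∃ T : Set H,
    Function.Injective (Monoid.CoprodI.lift (fun t : T =>
      (MulAut.conj (t : H)).toMonoidHom.comp φ) : Monoid.CoprodI (fun _ : T => G) →* H) ∧
    ∀ h : H, ∃ n ∈ (Monoid.CoprodI.lift (fun t : T =>
      (MulAut.conj (t : H)).toMonoidHom.comp φ) : Monoid.CoprodI (fun _ : T => G) →* H).range,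
      ∃ t ∈ T, h = n * t

/-- Finite towers of adjunctions of solutions of positive equations and of Cohen-Lyndon
embeddings. -/
inductive Tower : ∀ {G H : Type} [Group G] [Group H], (G →* H) → Prop
  | equiv {G H : Type} [Group G] [Group H] (e : G ≃* H) : Tower (e : G →* H)
  | positive {G H K : Type} [Group G] [Group H] [Group K] (φ : G →* H) (ψ : H →* K) (d : ℕ) :
      Tower φ → PositiveStep d ψ → Tower (ψ.comp φ)
  | cohenLyndon {G H K : Type} [Group G] [Group H] [Group K] (φ : G →* H) (ψ : H →* K) :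
      Tower φ → CohenLyndonStep ψ → Tower (ψ.comp φ)

theorem Reflects.comp {G H K : Type} [Group G] [Group H] [Group K] {φ : G →* H} {ψ : H →* K}
    (hφ : Reflects φ) (hψ : Reflects ψ) : Reflects (ψ.comp φ) := by
  intro n a g h
  exact hφ n a g (hψ n (φ a) (fun i => φ (g i)) h)

theorem reflects_equiv {G H : Type} [Group G] [Group H] (e : G ≃* H) :
    Reflects (e : G →* H) := by
  rintro n a g ⟨c, hc⟩
  refine ⟨fun i => e.symm (c i), ?_⟩
  apply e.injective
  rw [map_list_prod, List.map_ofFn]
  simpa [Function.comp_def] using hc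

/-- The wreath product principle. -/
def WreathType {G H : Type} [Group G] [Group H] (φ : G →* H) : Prop :=
  ∃ (X : Type) (_ : X) (ψ : H →* Equiv.Perm (X × G)),
    (∀ (h : H) (x : X) (k g' : G), ψ h (x, k * g') = ((ψ h (x, k)).1, (ψ h (x, k)).2 * g')) ∧
    ∀ (g : G) (x : X) (k : G), ψ (φ g) (x, k) = (x, g * k)

theorem WreathType.reflects {G H : Type} [Group G] [Group H] {φ : G →* H}
    (hφ : WreathType φ) : Reflects φ := by
  obtain ⟨X, x₀, ψ, h1, h2⟩ := hφ
  rintro n a g ⟨c, hc⟩
  refine ⟨fun i => ((ψ (c i)⁻¹ (x₀, 1)).2)⁻¹, ?_⟩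
  -- action of one conjugate
  have key : ∀ (c : H) (g k : G), ψ (c * φ g * c⁻¹) (x₀, k) =
      (x₀, ((ψ c⁻¹ (x₀, 1)).2)⁻¹ * g * (ψ c⁻¹ (x₀, 1)).2 * k) := by
    intro c g k
    rcases hxm : ψ c⁻¹ (x₀, 1) with ⟨x, m⟩
    have e1 : ψ c⁻¹ (x₀, k) = (x, m * k) := by
      have := h1 c⁻¹ x₀ 1 k
      rw [one_mul, hxm] at this
      exact this
    have e2 : ψ c (x, m) = (x₀, 1) := by
      rw [← hxm, ← Equiv.Perm.mul_apply, ← map_mul, mul_inv_cancel, map_one]
      rfl
    rw [map_mul, map_mul, Equiv.Perm.mul_apply, Equiv.Perm.mul_apply, e1, h2]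
    have e3 : g * (m * k) = m * (m⁻¹ * g * m * k) := by group
    rw [e3, h1, e2]
    simp
  have key2 : ∀ (l : List (H × G)) (k : G),
      ψ ((l.map (fun q => q.1 * φ q.2 * q.1⁻¹)).prod) (x₀, k) =
      (x₀, (l.map (fun q => ((ψ q.1⁻¹ (x₀, 1)).2)⁻¹ * q.2 * (ψ q.1⁻¹ (x₀, 1)).2)).prod * k) := by
    intro l
    induction l with
    | nil => intro k; simp
    | cons q l ih =>
      intro k
      rw [List.map_cons, List.prod_cons, map_mul, Equiv.Perm.mul_apply, ih, key,
        List.map_cons, List.prod_cons]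
      simp only [mul_assoc]
  have h3 := key2 (List.ofFn (fun i => (c i, g i))) 1
  rw [List.map_ofFn, List.map_ofFn] at h3
  simp only [Function.comp_def] at h3
  rw [← hc, h2] at h3
  simp only [mul_one, Prod.mk.injEq, true_and] at h3
  rw [h3]
  simp

/-- palindromic products are trivial -/
theorem pal {G : Type} [Group G] (m : ℕ) : ∀ B : ℕ → G,
    ((List.range m).map (fun j => B j * (B (m - 1 - j))⁻¹)).prod = 1 := by
  induction m using Nat.twoStepInduction with
  | zero => intro B; simp
  | one => intro B; simp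
  | more m ih _ =>
    intro B
    rw [List.range_succ, List.range_succ_eq_map]
    have := ih (fun j => B (j + 1))
    simp only [List.map_append, List.map_cons, List.map_map, List.map_nil, List.prod_append,
      List.prod_cons, List.prod_nil, mul_one]
    have e : (List.map ((fun j => B j * (B (m + 2 - 1 - j))⁻¹) ∘ Nat.succ) (List.range m)) =
        (List.map (fun j => B (j + 1) * (B (m - 1 - j + 1))⁻¹) (List.range m)) := by
      apply List.map_congr_left
      intro j hj
      have hj' := List.mem_range.1 hj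
      simp only [Function.comp, Nat.succ_eq_add_one]
      congr 3
      omega
    rw [e, this]
    have e1 : m + 2 - 1 - 0 = m + 1 := by omega
    have e2 : m + 2 - 1 - (m + 1) = 0 := by omega
    rw [e1, e2]
    group

end Pool.Agent.L5helper65.Dep
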