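import Pool.Agent.L5helper65.Dep.Hom

set_option autoImplicit false
open scoped TensorProduct

namespace Pool.Agent.L5helper65.Dep

/-- The endomorphisms of the free group of rank `k` which are composed of automorphisms and of
substitutions of the following kind: one basis element `x i` is replaced by a word
`a 0 * x i * a 1 * x i * … * a (d-1) * x i` with coefficients `a m` in the subgroup generated by the
other basis elements, the other basis elements are fixed, and `p` does not divide `d > 0`. -/
inductive PositiveEndo (k p : ℕ) : (FreeGroup (Fin k) →* FreeGroup (Fin k)) → Prop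
  | aut (e : FreeGroup (Fin k) ≃* FreeGroup (Fin k)) :
      PositiveEndo k p (e : FreeGroup (Fin k) →* FreeGroup (Fin k))
  | comp (f g : FreeGroup (Fin k) →* FreeGroup (Fin k)) :
      PositiveEndo k p f → PositiveEndo k p g → PositiveEndo k p (g.comp f)
  | subst (f : FreeGroup (Fin k) →* FreeGroup (Fin k)) (i : Fin k) (d : ℕ)
      (a : Fin d → FreeGroup (Fin k)) :
      0 < d → ¬ p ∣ d →
      (∀ m, a m ∈ Subgroup.closure {x | ∃ j, j ≠ i ∧ x = FreeGroup.of j}) →
      (∀ j, j ≠ i → f (FreeGroup.of j) = FreeGroup.of j) →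
      f (FreeGroup.of i) = (List.ofFn (fun m => a m * FreeGroup.of i)).prod →
      PositiveEndo k p f

theorem ofFn_update_head {M : Type} [Monoid M] {d : ℕ} (hd : 0 < d) (a : Fin d → M) (u t : M) :
    (List.ofFn (fun m => (if m = ⟨0, hd⟩ then u * a m else a m) * t)).prod =
      u * (List.ofFn (fun m => a m * t)).prod := by
  obtain ⟨e, rfl⟩ : ∃ e, d = e + 1 := ⟨d - 1, by omega⟩
  rw [List.ofFn_succ, List.ofFn_succ, List.prod_cons, List.prod_cons]
  have : (⟨0, hd⟩ : Fin (e + 1)) = 0 := rfl
  simp only [this, if_true, Fin.succ_ne_zero, if_false, mul_assoc]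

theorem subst_step {k d : ℕ} (f : FreeGroup (Fin k) →* FreeGroup (Fin k)) (i : Fin k)
    (a : Fin d → FreeGroup (Fin k)) (hd : 0 < d)
    (ha : ∀ m, a m ∈ Subgroup.closure {x | ∃ j, j ≠ i ∧ x = FreeGroup.of j})
    (hf : ∀ j, j ≠ i → f (FreeGroup.of j) = FreeGroup.of j)
    (hfi : f (FreeGroup.of i) = (List.ofFn (fun m => a m * FreeGroup.of i)).prod) :
    PositiveStep d f := by
  have hfa : ∀ m, f (a m) = a m := by
    intro m
    have : ∀ y ∈ Subgroup.closure {x | ∃ j, j ≠ i ∧ x = FreeGroup.of j}, f y = y := by
      intro y hy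
      induction hy using Subgroup.closure_induction with
      | mem x hx => obtain ⟨j, hj, rfl⟩ := hx; exact hf j hj
      | one => exact map_one f
      | mul x y _ _ hx hy => rw [map_mul, hx, hy]
      | inv x _ hx => rw [map_inv, hx]
    exact this _ (ha m)
  refine ⟨hd, fun m => if m = ⟨0, hd⟩ then (FreeGroup.of i)⁻¹ * a m else a m,
    FreeGroup.of i, ?_, ?_, ?_⟩
  · have e : (fun m => f (if m = ⟨0, hd⟩ then (FreeGroup.of i)⁻¹ * a m else a m) * FreeGroup.of i) =
        (fun m => (if m = ⟨0, hd⟩ then (f (FreeGroup.of i))⁻¹ * a m else a m) *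
          FreeGroup.of i) := by
      funext m
      split_ifs
      · rw [map_mul, map_inv, hfa]
      · rw [hfa]
    rw [e, ofFn_update_head, ← hfi]
    simp
  · rw [eq_top_iff]
    have h1 : Subgroup.closure (Set.range (FreeGroup.of : Fin k → FreeGroup (Fin k))) = ⊤ :=
      FreeGroup.closure_range_of _
    rw [← h1, Subgroup.closure_le]
    rintro _ ⟨j, rfl⟩
    by_cases hj : j = i
    · subst hj
      exact Subgroup.subset_closure (Or.inr rfl)
    · exact Subgroup.subset_closure (Or.inl ⟨FreeGroup.of j, hf j hj⟩)
  · intro L _ α s hα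
    let ψ : FreeGroup (Fin k) →* L :=
      FreeGroup.lift (fun j => if j = i then s else α (FreeGroup.of j))
    have hψi : ψ (FreeGroup.of i) = s := by simp [ψ]
    have hψj : ∀ j, j ≠ i → ψ (FreeGroup.of j) = α (FreeGroup.of j) := by
      intro j hj; simp [ψ, hj]
    have hψa : ∀ m, ψ (a m) = α (a m) := by
      intro m
      have : ∀ y ∈ Subgroup.closure {x | ∃ j, j ≠ i ∧ x = FreeGroup.of j}, ψ y = α y := by
        intro y hy
        induction hy using Subgroup.closure_induction with
        | mem x hx => obtain ⟨j, hj, rfl⟩ := hx; exact hψj j hj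
        | one => rw [map_one, map_one]
        | mul x y _ _ hx hy => rw [map_mul, map_mul, hx, hy]
        | inv x _ hx => rw [map_inv, map_inv, hx]
      exact this _ (ha m)
    refine ⟨ψ, ?_, hψi⟩
    apply FreeGroup.ext_hom
    intro j
    rw [MonoidHom.comp_apply]
    by_cases hj : j = i
    · subst hj
      rw [hfi, map_list_prod, List.map_ofFn]
      have e : (⇑ψ ∘ fun m => a m * FreeGroup.of j) = fun m => α (a m) * s := by
        funext m
        simp only [Function.comp]
        rw [map_mul, hψa, hψi]
      rw [e]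
      have e2 : (fun m => α (if m = ⟨0, hd⟩ then (FreeGroup.of j)⁻¹ * a m else a m) * s) =
          (fun m => (if m = ⟨0, hd⟩ then (α (FreeGroup.of j))⁻¹ * α (a m) else α (a m)) * s) := by
        funext m
        split_ifs
        · rw [map_mul, map_inv]
        · rfl
      rw [e2, ofFn_update_head hd (fun m => α (a m))] at hα
      exact inv_mul_eq_one.1 hα |>.symm
    · rw [hf j hj, hψj j hj]

theorem PositiveEndo.reflects {k p : ℕ} {f : FreeGroup (Fin k) →* FreeGroup (Fin k)}
    (h : PositiveEndo k p f) : Reflects f := by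
  induction h with
  | aut e => exact reflects_equiv e
  | comp f g _ _ hf hg => exact hf.comp hg
  | subst f i d a hd _ ha hf hfi => exact (subst_step f i a hd ha hf hfi).wreath.reflects

theorem PositiveEndo.H1_bij {k p : ℕ} (hp : p.Prime)
    {f : FreeGroup (Fin k) →* FreeGroup (Fin k)}
    (h : PositiveEndo k p f) : Function.Bijective (H1 p f) := by
  induction h with
  | aut e => exact H1_equiv p e
  | comp f g _ _ hf hg => exact H1_bij_comp p hf hg
  | subst f i d a hd hpd ha hf hfi => exact (subst_step f i a hd ha hf hfi).H1_bij hp hpd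

theorem Reflects.injective {G H : Type} [Group G] [Group H] {φ : G →* H} (h : Reflects φ) :
    Function.Injective φ := by
  rw [injective_iff_map_eq_one]
  intro a ha
  obtain ⟨c, hc⟩ := h 0 a (fun i => i.elim0) ⟨fun i => i.elim0, by simp [ha]⟩
  simpa using hc

theorem range_H1 {p : ℕ} {G H : Type} [Group G] [Group H] {φ : G →* H} (h : Reflects φ)
    (h1 : Function.Bijective (H1 p φ)) : Function.Bijective (H1 p φ.range.subtype) := by
  let e : G ≃* φ.range := MonoidHom.ofInjective h.injective
  have he : φ.range.subtype.comp (e : G →* φ.range) = φ := by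
    ext x; rfl
  have h2 := H1_equiv p e
  rw [← he, H1_comp, LinearMap.coe_comp] at h1
  exact (Function.Bijective.of_comp_iff _ h2).1 h1

theorem range_reflects {G H : Type} [Group G] [Group H] {φ : G →* H} (h : Reflects φ) :
    Reflects φ.range.subtype := by
  let e : G ≃* φ.range := MonoidHom.ofInjective h.injective
  have he : φ.range.subtype = φ.comp (e.symm : φ.range →* G) := by
    ext x
    obtain ⟨y, rfl⟩ := e.surjective x
    simp only [MonoidHom.comp_apply, MonoidHom.coe_coe, MulEquiv.symm_apply_apply]
    rfl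
  rw [he]
  exact (reflects_equiv e.symm).comp h

end Pool.Agent.L5helper65.Dep
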