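import Pool.Agent.L5helper65.Dep.Step

set_option autoImplicit false
open scoped TensorProduct

namespace Pool.Agent.L5helper65.Dep

/-- the map induced by `φ` on first homology with coefficients in `ZMod p` -/
noncomputable abbrev H1 (p : ℕ) {G H : Type} [Group G] [Group H] (φ : G →* H) :=
  LinearMap.rTensor (ZMod p)
    (AddMonoidHom.toIntLinearMap (MonoidHom.toAdditive (Abelianization.map φ)))

theorem H1_tmul (p : ℕ) {G H : Type} [Group G] [Group H] (φ : G →* H) (g : G) (c : ZMod p) :
    H1 p φ (Additive.ofMul (Abelianization.of g) ⊗ₜ[ℤ] c) =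
      Additive.ofMul (Abelianization.of (φ g)) ⊗ₜ[ℤ] c := rfl

theorem tens_ind (p : ℕ) {G : Type} [Group G]
    {P : (Additive (Abelianization G)) ⊗[ℤ] ZMod p → Prop} (h0 : P 0)
    (h1 : ∀ (x : G) (c : ZMod p), P (Additive.ofMul (Abelianization.of x) ⊗ₜ[ℤ] c))
    (h2 : ∀ u v, P u → P v → P (u + v)) (z : (Additive (Abelianization G)) ⊗[ℤ] ZMod p) : P z := by
  induction z using TensorProduct.induction_on with
  | zero => exact h0
  | tmul m c =>
    obtain ⟨y, rfl⟩ := Additive.ofMul.surjective m
    obtain ⟨x, rfl⟩ := QuotientGroup.mk_surjective y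
    exact h1 x c
  | add u v hu hv => exact h2 u v hu hv

theorem H1_ext (p : ℕ) {G H : Type} [Group G] [Group H]
    {f g : (Additive (Abelianization G)) ⊗[ℤ] ZMod p →ₗ[ℤ] (Additive (Abelianization H)) ⊗[ℤ] ZMod p}
    (h : ∀ (x : G) (c : ZMod p), f (Additive.ofMul (Abelianization.of x) ⊗ₜ[ℤ] c) =
      g (Additive.ofMul (Abelianization.of x) ⊗ₜ[ℤ] c)) : f = g := by
  apply LinearMap.ext
  intro z
  induction z using tens_ind p with
  | h0 => rw [map_zero, map_zero]
  | h1 x c => exact h x c
  | h2 u v hu hv => rw [map_add, map_add, hu, hv]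

theorem H1_comp (p : ℕ) {G H K : Type} [Group G] [Group H] [Group K] (φ : G →* H)
    (ψ : H →* K) : H1 p (ψ.comp φ) = (H1 p ψ).comp (H1 p φ) := by
  apply H1_ext
  intro x c
  rfl

theorem H1_id (p : ℕ) {G : Type} [Group G] : H1 p (MonoidHom.id G) = LinearMap.id := by
  apply H1_ext
  intro x c
  rfl

theorem H1_equiv (p : ℕ) {G H : Type} [Group G] [Group H] (e : G ≃* H) :
    Function.Bijective (H1 p (e : G →* H)) := by
  have h1 : (H1 p (e.symm : H →* G)).comp (H1 p (e : G →* H)) = LinearMap.id := by
    rw [← H1_comp, ← H1_id]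
    congr 1
    ext x
    simp
  have h2 : (H1 p (e : G →* H)).comp (H1 p (e.symm : H →* G)) = LinearMap.id := by
    rw [← H1_comp, ← H1_id]
    congr 1
    ext x
    simp
  refine ⟨?_, ?_⟩
  · intro x y hxy
    have := congrArg (H1 p (e.symm : H →* G)) hxy
    rw [← LinearMap.comp_apply, ← LinearMap.comp_apply, h1] at this
    simpa using this
  · intro y
    refine ⟨H1 p (e.symm : H →* G) y, ?_⟩
    rw [← LinearMap.comp_apply, h2]
    simp

theorem H1_bij_comp (p : ℕ) {G H K : Type} [Group G] [Group H] [Group K] {φ : G →* H}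
    {ψ : H →* K} (h1 : Function.Bijective (H1 p φ)) (h2 : Function.Bijective (H1 p ψ)) :
    Function.Bijective (H1 p (ψ.comp φ)) := by
  rw [H1_comp]
  exact h2.comp h1

theorem sum_ofFn {M : Type} [AddCommGroup M] {d : ℕ} (f : Fin d → M) (s : M) :
    (List.ofFn (fun i => f i + s)).sum = (List.ofFn f).sum + d • s := by
  rw [List.sum_ofFn, List.sum_ofFn, Finset.sum_add_distrib]
  simp

theorem PositiveStep.H1_bij {d p : ℕ} (hp : p.Prime) (hd : ¬ p ∣ d) {G H : Type} [Group G]
    [Group H] {φ : G →* H} (h : PositiveStep d φ) : Function.Bijective (H1 p φ) := by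
  obtain ⟨hd0, a, t, heq, hgen, hu⟩ := h
  have : Fact p.Prime := ⟨hp⟩
  obtain ⟨e, he⟩ : ∃ e : ℤ, (e : ZMod p) * (d : ZMod p) = 1 := by
    have hne : (d : ZMod p) ≠ 0 := by
      intro h0
      exact hd ((ZMod.natCast_eq_zero_iff d p).1 h0)
    refine ⟨((d : ZMod p)⁻¹).val, ?_⟩
    have : (((((d : ZMod p)⁻¹).val : ℕ) : ℤ) : ZMod p) = (d : ZMod p)⁻¹ := by
      push_cast
      exact ZMod.natCast_zmod_val _
    rw [this]
    exact inv_mul_cancel₀ hne
  constructor
  · -- injectivity
    let M := (Additive (Abelianization G)) ⊗[ℤ] ZMod p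
    let α : G →* Multiplicative M :=
      { toFun := fun g => Multiplicative.ofAdd
          (Additive.ofMul (Abelianization.of g) ⊗ₜ[ℤ] (1 : ZMod p))
        map_one' := by
          show Multiplicative.ofAdd (Additive.ofMul (Abelianization.of (1 : G)) ⊗ₜ[ℤ]
            (1 : ZMod p)) = 1
          rw [map_one, ofMul_one, TensorProduct.zero_tmul]
          rfl
        map_mul' := fun x y => by
          show Multiplicative.ofAdd (Additive.ofMul (Abelianization.of (x * y)) ⊗ₜ[ℤ]
            (1 : ZMod p)) = _
          rw [map_mul, ofMul_mul, TensorProduct.add_tmul]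
          rfl }
    let X : M := (List.ofFn (fun i => (Additive.ofMul (Abelianization.of (a i)) ⊗ₜ[ℤ]
      (1 : ZMod p) : M))).sum
    have hM : ∀ m : M, (d : ℕ) • (e • m) = m := by
      intro m
      induction m using TensorProduct.induction_on with
      | zero => simp
      | tmul x c =>
        have : (d : ℕ) • (e • (x ⊗ₜ[ℤ] c : M)) = x ⊗ₜ[ℤ] ((d : ℕ) • (e • c)) := by
          rw [TensorProduct.tmul_smul, TensorProduct.tmul_smul]
        rw [this]
        congr 1
        rw [nsmul_eq_mul, zsmul_eq_mul, ← mul_assoc, mul_comm (d : ZMod p), he, one_mul]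
      | add x y hx hy => rw [smul_add, smul_add, hx, hy]
    obtain ⟨ψ, hψ, _⟩ := hu (Multiplicative M) α (Multiplicative.ofAdd (-(e • X))) (by
      have h1 : (List.ofFn (fun i => α (a i) * Multiplicative.ofAdd (-(e • X)))).prod =
          Multiplicative.ofAdd ((List.ofFn (fun i => (Additive.ofMul (Abelianization.of (a i))
            ⊗ₜ[ℤ] (1 : ZMod p) : M) + -(e • X))).sum) := by
        rw [← ofAdd_toAdd ((List.ofFn (fun i => α (a i) *
          Multiplicative.ofAdd (-(e • X)))).prod)]
        congr 1
      rw [h1, sum_ofFn]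
      have h2 : X + d • -(e • X) = 0 := by
        rw [smul_neg, hM]
        simp
      rw [show (List.ofFn (fun i => (Additive.ofMul (Abelianization.of (a i))
            ⊗ₜ[ℤ] (1 : ZMod p) : M))).sum = X from rfl, h2]
      rfl)
    let h0 : Additive (Abelianization H) →ₗ[ℤ] M :=
      AddMonoidHom.toIntLinearMap (MonoidHom.toAdditiveLeft (Abelianization.lift ψ))
    let h : (Additive (Abelianization H)) ⊗[ℤ] ZMod p →ₗ[ℤ] M :=
      ((LinearMap.lTensor (Additive (Abelianization G)) (LinearMap.mul' ℤ (ZMod p))).comp
        (TensorProduct.assoc ℤ (Additive (Abelianization G)) (ZMod p) (ZMod p)).toLinearMap).comp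
        (LinearMap.rTensor (ZMod p) h0)
    have hh1 : ∀ (x : G) (c : ZMod p), h (H1 p φ (Additive.ofMul (Abelianization.of x) ⊗ₜ[ℤ] c))
        = Additive.ofMul (Abelianization.of x) ⊗ₜ[ℤ] c := by
      intro x c
      have e1 : h0 (Additive.ofMul (Abelianization.of (φ x))) =
          (Additive.ofMul (Abelianization.of x) ⊗ₜ[ℤ] (1 : ZMod p)) := by
        show Multiplicative.toAdd (Abelianization.lift ψ (Abelianization.of (φ x))) = _
        rw [Abelianization.lift_apply_of]
        have := DFunLike.congr_fun hψ x
        simp only [MonoidHom.comp_apply] at this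
        rw [this]
        rfl
      rw [H1_tmul]
      show (LinearMap.lTensor (Additive (Abelianization G)) (LinearMap.mul' ℤ (ZMod p)))
        ((TensorProduct.assoc ℤ (Additive (Abelianization G)) (ZMod p) (ZMod p))
          (h0 (Additive.ofMul (Abelianization.of (φ x))) ⊗ₜ[ℤ] c)) = _
      rw [e1]
      simp
    have hh : ∀ z, h (H1 p φ z) = z := by
      intro z
      induction z using tens_ind p with
      | h0 => rw [map_zero, map_zero]
      | h1 x c => exact hh1 x c
      | h2 u v hu hv => rw [map_add, map_add, hu, hv]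
    intro x y hxy
    rw [← hh x, ← hh y, hxy]
  · -- surjectivity
    have hN : ∀ (x : H) (c : ZMod p),
        (Additive.ofMul (Abelianization.of x) ⊗ₜ[ℤ] c) ∈ LinearMap.range (H1 p φ) := by
      intro x
      have hx : x ∈ Subgroup.closure (Set.range φ ∪ {t}) := by rw [hgen]; trivial
      induction hx using Subgroup.closure_induction with
      | mem x hx =>
        intro c
        rcases hx with ⟨g, rfl⟩ | hx
        · exact ⟨Additive.ofMul (Abelianization.of g) ⊗ₜ[ℤ] c, H1_tmul p φ g c⟩
        · have hx' : x = t := hx
          subst hx'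
          have h1 : (List.ofFn (fun i => (Additive.ofMul (Abelianization.of (φ (a i))) :
              Additive (Abelianization H)))).sum +
              d • (Additive.ofMul (Abelianization.of x) : Additive (Abelianization H)) = 0 := by
            rw [← sum_ofFn]
            have h2 := congrArg (fun z => (Additive.ofMul (Abelianization.of z) :
              Additive (Abelianization H))) heq
            simp only [map_list_prod, List.map_ofFn, map_one, ofMul_one] at h2
            rw [← h2, ofMul_list_prod, List.map_ofFn]
            congr 1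
            
          have h3 : d • (Additive.ofMul (Abelianization.of x) : Additive (Abelianization H)) =
              -(List.ofFn (fun i => (Additive.ofMul (Abelianization.of (φ (a i))) :
              Additive (Abelianization H)))).sum := by
            rw [eq_neg_iff_add_eq_zero, add_comm]; exact h1
          have h4 : (Additive.ofMul (Abelianization.of x) ⊗ₜ[ℤ] c) =
              (d • (Additive.ofMul (Abelianization.of x) : Additive (Abelianization H)))
                ⊗ₜ[ℤ] (e • c) := by
            rw [TensorProduct.smul_tmul]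
            congr 1
            rw [nsmul_eq_mul, zsmul_eq_mul, ← mul_assoc, mul_comm (d : ZMod p), he, one_mul]
          rw [h4, h3, TensorProduct.neg_tmul]
          apply Submodule.neg_mem
          generalize e • c = c'
          have h5 : ∀ l : List G, ((l.map (fun y => (Additive.ofMul (Abelianization.of (φ y)) :
              Additive (Abelianization H)))).sum ⊗ₜ[ℤ] c') ∈ LinearMap.range (H1 p φ) := by
            intro l
            induction l with
            | nil => simp
            | cons y l ih =>
              rw [List.map_cons, List.sum_cons, TensorProduct.add_tmul]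
              exact Submodule.add_mem _ ⟨_, H1_tmul p φ y c'⟩ ih
          have := h5 (List.ofFn a)
          rw [List.map_ofFn] at this
          exact this
      | one => intro c; simp
      | mul x y _ _ hx hy =>
        intro c
        rw [map_mul, ofMul_mul, TensorProduct.add_tmul]
        exact Submodule.add_mem _ (hx c) (hy c)
      | inv x _ hx =>
        intro c
        rw [map_inv, ofMul_inv, TensorProduct.neg_tmul]
        exact Submodule.neg_mem _ (hx c)
    intro y
    induction y using TensorProduct.induction_on with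
    | zero => exact ⟨0, map_zero _⟩
    | tmul m c =>
      obtain ⟨z, rfl⟩ := Additive.ofMul.surjective m
      obtain ⟨x, rfl⟩ := QuotientGroup.mk_surjective z
      exact hN x c
    | add x y hx hy =>
      obtain ⟨x', rfl⟩ := hx
      obtain ⟨y', rfl⟩ := hy
      exact ⟨x' + y', map_add _ _ _⟩

end Pool.Agent.L5helper65.Dep
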