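import Pool.Agent.L5helper65.Dep.Basic

set_option autoImplicit false

namespace Pool.Agent.L5helper65.Dep

section
variable (X G : Type) [Group G]

/-- permutations of `X × G` commuting with the right translations of `G` -/
def RT : Subgroup (Equiv.Perm (X × G)) where
  carrier := {f | ∀ (x : X) (k g' : G), f (x, k * g') = ((f (x, k)).1, (f (x, k)).2 * g')}
  one_mem' := by intro x k g'; rfl
  mul_mem' := by
    intro f h hf hh x k g'
    rw [Equiv.Perm.mul_apply, hh, hf, Equiv.Perm.mul_apply]
  inv_mem' := by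
    intro f hf x k g'
    rcases hy : f⁻¹ (x, k) with ⟨y, m⟩
    have h1 : f (y, m) = (x, k) := by
      rw [← hy]; simp
    have h2 : f (y, m * g') = (x, k * g') := by rw [hf, h1]
    show f⁻¹ (x, k * g') = (y, m * g')
    rw [← h2]; simp

/-- the diagonal -/
def diag : G →* RT X G where
  toFun g := ⟨⟨fun q => (q.1, g * q.2), fun q => (q.1, g⁻¹ * q.2), fun q => by simp,
    fun q => by simp⟩, fun x k g' => by simp [mul_assoc]⟩
  map_one' := by ext q <;> simp
  map_mul' a b := by ext q <;> simp [mul_assoc]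

end

section
variable {G : Type} [Group G] {d : ℕ} [NeZero d]

/-- the shift with coordinates -/
def shift (T : ZMod d → G) : RT (ZMod d) G :=
  ⟨⟨fun q => (q.1 + 1, T q.1 * q.2), fun q => (q.1 - 1, (T (q.1 - 1))⁻¹ * q.2), fun q => by simp,
    fun q => by simp⟩, fun x k g' => by simp [mul_assoc]⟩

omit [NeZero d] in
theorem act (T : ZMod d → G) (A : ℕ → G) (n : ℕ) : ∀ (x : ZMod d) (k : G),
    ((((List.range n).map (fun i => diag (ZMod d) G (A i) * shift T)).prod : RT (ZMod d) G) :
      Equiv.Perm (ZMod d × G)) (x, k) =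
    (x + n, ((List.range n).map (fun i => A i * T (x + ((n - 1 - i : ℕ) : ZMod d)))).prod * k) := by
  induction n with
  | zero => intro x k; simp
  | succ n ih =>
    intro x k
    rw [List.range_succ, List.map_append, List.prod_append, List.map_append, List.prod_append]
    simp only [List.map_cons, List.map_nil, List.prod_cons, List.prod_nil, mul_one,
      Subgroup.coe_mul, Equiv.Perm.mul_apply]
    have e : ((diag (ZMod d) G (A n) : RT (ZMod d) G) : Equiv.Perm (ZMod d × G))
        (((shift T : RT (ZMod d) G) : Equiv.Perm (ZMod d × G)) (x, k)) =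
        (x + 1, A n * (T x * k)) := rfl
    rw [e, ih]
    have e2 : (List.map (fun i => A i * T (x + 1 + ((n - 1 - i : ℕ) : ZMod d))) (List.range n)) =
        (List.map (fun i => A i * T (x + ((n + 1 - 1 - i : ℕ) : ZMod d))) (List.range n)) := by
      apply List.map_congr_left
      intro i hi
      have hi' := List.mem_range.1 hi
      have : n + 1 - 1 - i = (n - 1 - i) + 1 := by omega
      rw [this]
      congr 2
      push_cast
      ring
    rw [e2]
    refine Prod.ext ?_ ?_
    · simp only
      push_cast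
      ring
    · simp [mul_assoc]

theorem levin (a : Fin d → G) (T : ZMod d → G)
    (hT : ∀ x : ZMod d, T x = (a ⟨x.val, ZMod.val_lt x⟩)⁻¹) :
    (List.ofFn (fun i => diag (ZMod d) G (a i) * shift T)).prod = 1 := by
  have hd : 0 < d := Nat.pos_of_ne_zero (NeZero.ne d)
  set A : ℕ → G := fun i => a ⟨i % d, Nat.mod_lt i hd⟩ with hA
  have hper : ∀ i, A (i + d) = A i := by
    intro i; simp [hA]
  have e0 : (List.ofFn (fun i => diag (ZMod d) G (a i) * shift T)) =
      ((List.range d).map (fun i => diag (ZMod d) G (A i) * shift T)) := by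
    apply List.ext_getElem
    · simp
    · intro i h1 h2
      have hi : i < d := by simpa using h1
      simp [hA, Nat.mod_eq_of_lt hi]
  have hTA : ∀ (x : ZMod d) (j : ℕ), T (x + (j : ZMod d)) = (A (x.val + j))⁻¹ := by
    intro x j
    rw [hT]
    congr 2
    simp only [Fin.mk.injEq]
    rw [ZMod.val_add, ZMod.val_natCast]
    simp
  apply Subtype.ext
  apply Equiv.ext
  rintro ⟨x, k⟩
  rw [e0, act]
  have hv : x.val < d := ZMod.val_lt x
  set v := x.val with hvdef
  obtain ⟨m, hm⟩ : ∃ m, d = v + m := ⟨d - v, by omega⟩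
  have e1 : ((List.range d).map (fun i => A i * T (x + ((d - 1 - i : ℕ) : ZMod d)))) =
      (List.range v).map (fun j => A j * (A (v - 1 - j))⁻¹) ++
      (List.range m).map (fun j => A (v + j) * (A (v + (m - 1 - j)))⁻¹) := by
    have : List.range d = List.range v ++ (List.range m).map (fun j => v + j) := by
      conv_lhs => rw [hm]
      exact List.range_add
    rw [this, List.map_append, List.map_map]
    congr 1
    · apply List.map_congr_left
      intro i hi
      have hi' := List.mem_range.1 hi
      rw [hTA, ← hvdef]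
      have : v + (d - 1 - i) = (v - 1 - i) + d := by omega
      rw [this, hper]
    · apply List.map_congr_left
      intro i hi
      have hi' := List.mem_range.1 hi
      simp only [Function.comp]
      rw [hTA, ← hvdef]
      have : d - 1 - (v + i) = m - 1 - i := by omega
      rw [this]
  rw [e1, List.prod_append, pal v A, pal m (fun j => A (v + j))]
  simp

end

theorem PositiveStep.wreath {d : ℕ} {G H : Type} [Group G] [Group H] {φ : G →* H}
    (h : PositiveStep d φ) : WreathType φ := by
  obtain ⟨hd, a, t, _, _, hu⟩ := h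
  have : NeZero d := ⟨hd.ne'⟩
  obtain ⟨ψ, hψ, _⟩ := hu (RT (ZMod d) G) (diag (ZMod d) G)
    (shift (fun x : ZMod d => (a ⟨x.val, ZMod.val_lt x⟩)⁻¹)) (levin a _ (fun _ => rfl))
  refine ⟨ZMod d, 0, (RT (ZMod d) G).subtype.comp ψ, ?_, ?_⟩
  · intro h x k g'
    exact (ψ h).2 x k g'
  · intro g x k
    have := DFunLike.congr_fun hψ g
    show ((ψ (φ g) : RT (ZMod d) G) : Equiv.Perm (ZMod d × G)) (x, k) = _
    have e : ψ (φ g) = diag (ZMod d) G g := this
    rw [e]
    rfl

theorem CohenLyndonStep.reflects {G H : Type} [Group G] [Group H] {φ : G →* H}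
    (h : CohenLyndonStep φ) : Reflects φ := by
  obtain ⟨T, hinj, hcov⟩ := h
  set Φ : Monoid.CoprodI (fun _ : T => G) →* H := Monoid.CoprodI.lift (fun t : T =>
      (MulAut.conj (t : H)).toMonoidHom.comp φ) with hΦ
  have hcov' : ∀ h : H, ∃ (m : Monoid.CoprodI (fun _ : T => G)) (t : T), h = Φ m * t := by
    intro h
    obtain ⟨n, ⟨m, rfl⟩, t, ht, e⟩ := hcov h
    exact ⟨m, ⟨t, ht⟩, e⟩
  choose m t hmt using hcov'
  have hconj : ∀ (h : H) (g : G), h * φ g * h⁻¹ =
      Φ (m h * Monoid.CoprodI.of (i := t h) g * (m h)⁻¹) := by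
    intro h g
    have e1 : Φ (Monoid.CoprodI.of (i := t h) g) = (t h : H) * φ g * (t h : H)⁻¹ := by
      rw [hΦ, Monoid.CoprodI.lift_of]
      rfl
    rw [map_mul, map_mul, map_inv, e1]
    conv_lhs => rw [hmt h]
    group
  let R : Monoid.CoprodI (fun _ : T => G) →* G :=
    Monoid.CoprodI.lift (fun _ : T => MonoidHom.id G)
  have hR : ∀ (i : T) (g : G), R (Monoid.CoprodI.of (i := i) g) = g := by
    intro i g
    simp [R]
  rintro n a g ⟨c, hc⟩
  have h1 : φ a = Φ (m 1 * Monoid.CoprodI.of (i := t 1) a * (m 1)⁻¹) := by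
    rw [← hconj]; simp
  have h2 : (List.ofFn (fun i => c i * φ (g i) * (c i)⁻¹)).prod =
      Φ ((List.ofFn (fun i => m (c i) * Monoid.CoprodI.of (i := t (c i)) (g i) *
        (m (c i))⁻¹)).prod) := by
    rw [map_list_prod, List.map_ofFn]
    congr 2
    funext i
    exact hconj _ _
  have h3 : m 1 * Monoid.CoprodI.of (i := t 1) a * (m 1)⁻¹ =
      (List.ofFn (fun i => m (c i) * Monoid.CoprodI.of (i := t (c i)) (g i) *
        (m (c i))⁻¹)).prod := by
    apply hinj
    rw [← h1, ← h2]
    exact hc
  have h4 := congrArg R h3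
  rw [map_mul, map_mul, map_inv, hR, map_list_prod, List.map_ofFn] at h4
  have h5 : (R ∘ fun i => m (c i) * Monoid.CoprodI.of (i := t (c i)) (g i) * (m (c i))⁻¹) =
      fun i => R (m (c i)) * g i * (R (m (c i)))⁻¹ := by
    funext i
    simp only [Function.comp]
    rw [map_mul, map_mul, map_inv, hR]
  rw [h5] at h4
  refine ⟨fun i => (R (m 1))⁻¹ * R (m (c i)), ?_⟩
  have h6 : ∀ (l : List (G × G)) (u : G),
      (l.map (fun q => (u⁻¹ * q.1) * q.2 * (u⁻¹ * q.1)⁻¹)).prod =
      u⁻¹ * (l.map (fun q => q.1 * q.2 * q.1⁻¹)).prod * u := by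
    intro l u
    induction l with
    | nil => simp
    | cons q l ih =>
      rw [List.map_cons, List.prod_cons, ih, List.map_cons, List.prod_cons]
      group
  have h7 := h6 (List.ofFn (fun i => (R (m (c i)), g i))) (R (m 1))
  rw [List.map_ofFn, List.map_ofFn] at h7
  simp only [Function.comp_def] at h7
  rw [h7, ← h4]
  group

theorem Tower.reflects {G H : Type} [Group G] [Group H] {φ : G →* H}
    (h : Tower φ) : Reflects φ := by
  induction h with
  | equiv e => exact reflects_equiv e
  | positive φ ψ d _ hs ih => exact ih.comp hs.wreath.reflects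
  | cohenLyndon φ ψ _ hs ih => exact ih.comp hs.reflects

end Pool.Agent.L5helper65.Dep
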